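import Pool.Agent.H912R3.LF.Crt

set_option autoImplicit false
set_option maxHeartbeats 4000000

/-! # The exceptional primes for sums of two squares -/

namespace Pool.Agent.H912R3.QM

open Finset Pool.Agent.H256R2.SC Pool.Agent.H256R2.SC.G3

open scoped Classical

/-- the resultant of `(n + a) ^ 2 - D b ^ 2` and `(n + c) ^ 2 - D d ^ 2` -/
def res (D : ℤ) (x y : ℤ × ℕ) : ℤ :=
  ((x.1 - y.1) ^ 2 - D * ((x.2 : ℤ) - y.2) ^ 2) * ((x.1 - y.1) ^ 2 - D * ((x.2 : ℤ) + y.2) ^ 2)

theorem norm_ne {D : ℤ} (hsq : ¬ IsSquare D) {u v : ℤ} (hv : v ≠ 0) : u ^ 2 - D * v ^ 2 ≠ 0 := by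
  intro h
  apply hsq
  have h1 : v ^ 2 ∣ u ^ 2 := ⟨D, by linarith⟩
  have h2 : v ∣ u := (Int.pow_dvd_pow_iff two_ne_zero).1 h1
  obtain ⟨k, rfl⟩ := h2
  refine ⟨k, ?_⟩
  have h3 : v ^ 2 * (k * k - D) = 0 := by ring_nf; ring_nf at h; linarith
  rcases mul_eq_zero.1 h3 with h4 | h4
  · exact absurd h4 (pow_ne_zero 2 hv)
  · linarith

theorem res_ne {D : ℤ} (hsq : ¬ IsSquare D) {x y : ℤ × ℕ} (hx : 1 ≤ x.2) (hxy : x ≠ y) :
    res D x y ≠ 0 := by
  unfold res
  have hx0 : (1 : ℤ) ≤ x.2 := by exact_mod_cast hx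
  have hy0 : (0 : ℤ) ≤ y.2 := by positivity
  apply mul_ne_zero
  · by_cases h : (x.2 : ℤ) - y.2 = 0
    · intro h1
      apply hxy
      rw [h] at h1
      have h2 : (x.1 - y.1) ^ 2 = 0 := by linarith
      have h4 := pow_eq_zero_iff (two_ne_zero) |>.1 h2
      exact Prod.ext (by linarith) (by omega)
    · exact norm_ne hsq h
  · exact norm_ne hsq (by omega)

/-- a common prime divisor divides the resultant -/
theorem res_dvd {D : ℤ} {x y : ℤ × ℕ} {p n : ℤ} (h1 : p ∣ (n + x.1) ^ 2 + -(D * (x.2 : ℤ) ^ 2))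
    (h2 : p ∣ (n + y.1) ^ 2 + -(D * (y.2 : ℤ) ^ 2)) : p ∣ res D x y := by
  obtain ⟨u, hu⟩ := h1
  obtain ⟨v, hv⟩ := h2
  unfold res
  set a := x.1
  set b : ℤ := (x.2 : ℤ)
  set c := y.1
  set d : ℤ := (y.2 : ℤ)
  have e1 : 2 * (c - a) * (n + a) + (c - a) ^ 2 - D * d ^ 2 + D * b ^ 2 = p * (v - u) := by
    have : (n + c) ^ 2 + -(D * d ^ 2) - ((n + a) ^ 2 + -(D * b ^ 2)) = p * (v - u) := by
      rw [hu, hv]; ring
    rw [← this]; ring
  have e2 : ((a - c) ^ 2 - D * (b - d) ^ 2) * ((a - c) ^ 2 - D * (b + d) ^ 2) =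
      ((c - a) ^ 2 - D * d ^ 2 + D * b ^ 2) ^ 2 - 4 * (c - a) ^ 2 * (D * b ^ 2) := by ring
  rw [e2]
  have e3 : (c - a) ^ 2 - D * d ^ 2 + D * b ^ 2 = p * (v - u) - 2 * (c - a) * (n + a) := by linarith
  rw [e3]
  have e4 : (p * (v - u) - 2 * (c - a) * (n + a)) ^ 2 - 4 * (c - a) ^ 2 * (D * b ^ 2) =
      p * (p * (v - u) ^ 2 - 4 * (v - u) * (c - a) * (n + a)) +
      4 * (c - a) ^ 2 * ((n + a) ^ 2 + -(D * b ^ 2)) := by ring
  rw [e4, hu]
  exact dvd_add (Dvd.intro _ rfl) ((Dvd.intro _ rfl : p ∣ p * u).mul_left _)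

/-- the exceptional primes -/
theorem bad_two (D : ℤ) (hsq : ¬ IsSquare D) (A : ℕ) (L : ℝ) (hL : 40 ≤ L) (hDL : (|D| : ℝ) ≤ L) (U : Finset (ℤ × ℕ)) (hU : (U.card : ℝ) ≤ L)
    (h : ∀ x ∈ U, 1 ≤ x.2 ∧ |(x.1 : ℝ)| ≤ Real.exp (L ^ A) ∧ (x.2 : ℝ) ≤ Real.exp (L ^ A)) :
    ∃ B : Finset ℕ, (B.card : ℝ) ≤ L ^ (A + 4) ∧
      (∀ x ∈ U, ∀ p : ℕ, p.Prime → p ∣ x.2 → p ∈ B) ∧
      (∀ x ∈ U, ∀ y ∈ U, x ≠ y → ∀ p : ℕ, p.Prime → (p : ℤ) ∣ res D x y → p ∈ B) := by
  have hL0 : (0 : ℝ) ≤ L := by linarith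
  have hLA : 1 ≤ L ^ A := one_le_pow₀ (by linarith)
  set B1 := U.biUnion (fun x => x.2.primeFactors) with hB1
  set B2 := (U ×ˢ U).biUnion (fun z => (res D z.1 z.2).natAbs.primeFactors)
    with hB2
  refine ⟨B1 ∪ B2, ?_, ?_, ?_⟩
  · have c1 : (B1.card : ℝ) ≤ L * (2 * L ^ A) := by
      have h1 : (B1.card : ℝ) ≤ ∑ x ∈ U, (x.2.primeFactors.card : ℝ) := by
        exact_mod_cast card_biUnion_le
      refine h1.trans ?_
      calc ∑ x ∈ U, (x.2.primeFactors.card : ℝ) ≤ ∑ x ∈ U, (2 * L ^ A) := by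
            apply sum_le_sum
            intro x hx
            obtain ⟨h2, h4, h3⟩ := h x hx
            refine (card_primeFactors_le x.2 (by omega)).trans ?_
            have h4 : Real.log x.2 ≤ L ^ A := by
              rw [← Real.log_exp (L ^ A)]
              exact Real.log_le_log (by exact_mod_cast h2) h3
            linarith
        _ = (U.card : ℝ) * (2 * L ^ A) := by rw [sum_const, nsmul_eq_mul]
        _ ≤ L * (2 * L ^ A) := by gcongr
    have c2 : (B2.card : ℝ) ≤ L ^ 2 * (20 * L ^ A + 4 * (L * L ^ A)) := by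
      have h1 : (B2.card : ℝ) ≤ ∑ z ∈ U ×ˢ U,
          (((res D z.1 z.2).natAbs.primeFactors).card : ℝ) := by
        exact_mod_cast card_biUnion_le
      refine h1.trans ?_
      calc ∑ z ∈ U ×ˢ U,
          (((res D z.1 z.2).natAbs.primeFactors).card : ℝ) ≤
            ∑ z ∈ U ×ˢ U, (20 * L ^ A + 4 * (L * L ^ A)) := by
            apply sum_le_sum
            intro z hz
            rw [mem_product] at hz
            obtain ⟨h2, h3, h4⟩ := h z.1 hz.1
            obtain ⟨g2, g3, g4⟩ := h z.2 hz.2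
            by_cases h0 : (res D z.1 z.2).natAbs = 0
            · rw [h0]
              simp
              positivity
            refine (card_primeFactors_le _ h0).trans ?_
            set E := Real.exp (L ^ A) with hE
            have hE2 : (2 : ℝ) ≤ E := by
              have := Real.add_one_le_exp (L ^ A)
              linarith
            have hDE : |(D : ℝ)| ≤ L := by exact_mod_cast hDL
            have h5 : (((res D z.1 z.2).natAbs : ℕ) : ℝ) ≤ L ^ 2 * Real.exp (10 * L ^ A) := by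
              have e1 : (((res D z.1 z.2).natAbs : ℕ) : ℝ) =
                  |(((z.1.1 : ℝ) - z.2.1) ^ 2 - D * ((z.1.2 : ℝ) - z.2.2) ^ 2)| *
                    |(((z.1.1 : ℝ) - z.2.1) ^ 2 - D * ((z.1.2 : ℝ) + z.2.2) ^ 2)| := by
                rw [Nat.cast_natAbs]
                unfold res
                rw [abs_mul]
                push_cast
                rfl
              rw [e1]
              have a0 : (0 : ℝ) ≤ z.1.2 := by positivity
              have b0 : (0 : ℝ) ≤ z.2.2 := by positivity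
              have a1 : |(z.1.1 : ℝ) - z.2.1| ≤ 2 * E := (abs_sub _ _).trans (by linarith)
              have a2 : |(z.1.2 : ℝ) - z.2.2| ≤ 2 * E := by
                rw [abs_le]; constructor <;> linarith
              have a3 : |(z.1.2 : ℝ) + z.2.2| ≤ 2 * E := by
                rw [abs_of_nonneg (by linarith)]; linarith
              have s1 : ((z.1.1 : ℝ) - z.2.1) ^ 2 ≤ (2 * E) ^ 2 := sq_le_sq' (by linarith [(abs_le.1 a1).1]) (abs_le.1 a1).2
              have s2 : ((z.1.2 : ℝ) - z.2.2) ^ 2 ≤ (2 * E) ^ 2 := sq_le_sq' (by linarith [(abs_le.1 a2).1]) (abs_le.1 a2).2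
              have s3 : ((z.1.2 : ℝ) + z.2.2) ^ 2 ≤ (2 * E) ^ 2 := sq_le_sq' (by linarith [(abs_le.1 a3).1]) (abs_le.1 a3).2
              have key : ∀ v : ℝ, v ^ 2 ≤ (2 * E) ^ 2 →
                  |((z.1.1 : ℝ) - z.2.1) ^ 2 - D * v ^ 2| ≤ L * (8 * E ^ 2) := by
                intro v hv
                refine (abs_sub _ _).trans ?_
                rw [abs_of_nonneg (sq_nonneg ((z.1.1 : ℝ) - z.2.1)), abs_mul, abs_of_nonneg (sq_nonneg v)]
                have k1 : |(D : ℝ)| * v ^ 2 ≤ L * (2 * E) ^ 2 :=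
                  mul_le_mul hDE hv (sq_nonneg _) hL0
                have k2 : (2 * E) ^ 2 ≤ L * (2 * E) ^ 2 := by
                  have : (0 : ℝ) ≤ (2 * E) ^ 2 := by positivity
                  nlinarith
                linarith
              calc _ ≤ (L * (8 * E ^ 2)) * (L * (8 * E ^ 2)) := by
                    apply mul_le_mul (key _ s2) (key _ s3) (abs_nonneg _) (by positivity)
                _ = L ^ 2 * (2 ^ 6 * E ^ 4) := by ring
                _ ≤ L ^ 2 * (E ^ 6 * E ^ 4) := by gcongr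
                _ = L ^ 2 * Real.exp (10 * L ^ A) := by
                    rw [hE, ← pow_add, ← Real.exp_nat_mul]
                    norm_num
            have h6 : Real.log (((res D z.1 z.2).natAbs : ℕ) : ℝ) ≤
                2 * L + 10 * L ^ A := by
              have h7 : L ^ 2 * Real.exp (10 * L ^ A) ≤ Real.exp (2 * L + 10 * L ^ A) := by
                rw [Real.exp_add]
                have h8 : L ≤ Real.exp L := (by linarith [Real.add_one_le_exp L])
                have h9 : L ^ 2 ≤ Real.exp (2 * L) := by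
                  calc L ^ 2 ≤ (Real.exp L) ^ 2 := by gcongr
                    _ = Real.exp (2 * L) := by rw [← Real.exp_nat_mul]; norm_num
                gcongr
              rw [← Real.log_exp (2 * L + 10 * L ^ A)]
              exact Real.log_le_log (by exact_mod_cast Nat.pos_of_ne_zero h0) (h5.trans h7)
            have h10 : L ≤ L * L ^ A := by nlinarith
            nlinarith
        _ = ((U ×ˢ U).card : ℝ) * (20 * L ^ A + 4 * (L * L ^ A)) := by rw [sum_const, nsmul_eq_mul]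
        _ ≤ L ^ 2 * (20 * L ^ A + 4 * (L * L ^ A)) := by
            rw [card_product]
            push_cast
            have : (U.card : ℝ) * U.card ≤ L ^ 2 := by
              rw [sq]
              exact mul_le_mul hU hU (Nat.cast_nonneg _) hL0
            gcongr
    have c3 : ((B1 ∪ B2).card : ℝ) ≤ B1.card + B2.card := by exact_mod_cast card_union_le _ _
    have c4 : L * (2 * L ^ A) ≤ L ^ 2 * (2 * L ^ A) := by
      have : L ≤ L ^ 2 := by nlinarith
      gcongr
    have c5 : L ^ (A + 4) = L ^ 2 * (L * (L * L ^ A)) := by ring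
    rw [c5]
    have c6 : 22 * L ^ A + 4 * (L * L ^ A) ≤ L * (L * L ^ A) := by
      have h1 : L ^ A ≤ L * L ^ A := by nlinarith
      have h2 : 40 * (L * L ^ A) ≤ L * (L * L ^ A) := by
        have : 0 ≤ L * L ^ A := by positivity
        nlinarith
      have h3 : 0 ≤ L * L ^ A := by positivity
      linarith
    calc ((B1 ∪ B2).card : ℝ) ≤ L ^ 2 * (22 * L ^ A + 4 * (L * L ^ A)) := by nlinarith
      _ ≤ _ := by gcongr
  · intro x hx p hp hpx
    apply mem_union_left
    rw [hB1, mem_biUnion]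
    exact ⟨x, hx, Nat.mem_primeFactors.2 ⟨hp, hpx, by have := (h x hx).1; omega⟩⟩
  · intro x hx y hy hxy p hp hd
    apply mem_union_right
    rw [hB2, mem_biUnion]
    refine ⟨(x, y), mem_product.2 ⟨hx, hy⟩, Nat.mem_primeFactors.2 ⟨hp, Int.natCast_dvd.1 hd, ?_⟩⟩
    have := res_ne hsq (h x hx).1 hxy
    simpa using this

end Pool.Agent.H912R3.QM
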