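import Pool.Agent.H304R2.EC.MertAbs
import Pool.Agent.H912R3.LF.Mert
import Pool.Agent.Helper919.Stage0

set_option autoImplicit false
set_option maxHeartbeats 4000000

/-! # Mertens sums for a quadratic character outside a small set of primes -/

namespace Pool.Agent.H912R3.QM

open Finset ArithmeticFunction Filter Topology Pool.Agent.Helper919
open scoped ArithmeticFunction.zeta

/-- (adapted from `stage0_exists` of helper919) -/
theorem xx_approx (n : ℤ) (hn : n ≠ 0) (hsq : ¬ IsSquare n) (L : ℝ)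
    (hL : Tendsto (fun N : ℕ => (∑ m ∈ Ioc 0 N, (XX n * (ζ : ArithmeticFunction ℝ)) m) / (N : ℝ))
      atTop (𝓝 L)) (D : ℕ) :
    |L - ∑ d ∈ Ioc 0 D, XX n d * (1 / (d : ℝ))| ≤ (8 * n.natAbs : ℝ) / (D + 1) := by
  set B : ℝ := 8 * n.natAbs with hBdef
  have hB0 : 0 ≤ B := by positivity
  have hDpos : (0 : ℝ) < D + 1 := by positivity
  have h1 : Tendsto (fun N : ℕ => (∑ d ∈ Ioc 0 D, XX n d * ((N / d : ℕ) : ℝ)) / (N : ℝ)) atTop
        (𝓝 (∑ d ∈ Ioc 0 D, XX n d * (1 / (d : ℝ)))) := by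
    have h1 : Tendsto (fun N : ℕ => ∑ d ∈ Ioc 0 D, XX n d * (((N / d : ℕ) : ℝ) / (N : ℝ))) atTop
        (𝓝 (∑ d ∈ Ioc 0 D, XX n d * (1 / (d : ℝ)))) := by
      apply tendsto_finsetSum
      intro d hd
      exact (isWt_id.lim d (Finset.mem_Ioc.1 hd).1).const_mul _
    refine h1.congr fun N => ?_
    rw [Finset.sum_div]
    refine Finset.sum_congr rfl fun d _ => ?_
    ring
  have h2 := (hL.sub h1).abs
  refine le_of_tendsto h2 ?_
  filter_upwards [eventually_ge_atTop (D + 1)] with N hN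
  have hNpos : (0 : ℝ) < N := by exact_mod_cast (by omega : 0 < N)
  rw [sum_Ioc_mul_zeta_eq_sum (XX n) N]
  rw [← sub_div]
  have hsplit : ∑ d ∈ Ioc 0 N, XX n d * ((N / d : ℕ) : ℝ) - ∑ d ∈ Ioc 0 D, XX n d * ((N / d : ℕ) : ℝ)
      = ∑ d ∈ Ioc D N, XX n d * ((N / d : ℕ) : ℝ) := by
    rw [sub_eq_iff_eq_add, add_comm]
    rw [Finset.sum_Ioc_consecutive _ (Nat.zero_le D) (by omega)]
  rw [hsplit, abs_div, abs_of_pos hNpos, div_le_iff₀ hNpos]
  have hS : ∀ M, D ≤ M → |∑ d ∈ Ioc D M, XX n d| ≤ B := by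
    intro M hM
    have h1 := XX_sum_bound n hn hsq M
    have h2 := XX_sum_bound n hn hsq D
    have h3 : ∑ d ∈ Ioc D M, XX n d = ∑ d ∈ Ioc 0 M, XX n d - ∑ d ∈ Ioc 0 D, XX n d := by
      rw [eq_sub_iff_add_eq, add_comm, Finset.sum_Ioc_consecutive _ (Nat.zero_le D) hM]
    rw [h3, hBdef]
    rw [abs_le] at h1 h2 ⊢
    constructor <;> linarith [h1.1, h1.2, h2.1, h2.2]
  have h4 := Pool.Agent.Helper919.abel_bound (fun d => XX n d) (fun d => ((N / d : ℕ) : ℝ)) D B hS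
    (fun d _ => Nat.cast_nonneg _)
    (fun d hd => by
      have : N / (d + 1) ≤ N / d := Nat.div_le_div_left (by omega) (by omega)
      exact_mod_cast this) N hN
  refine h4.trans ?_
  have h5 : ((N / (D + 1) : ℕ) : ℝ) ≤ (N : ℝ) / (D + 1) := by
    have := @Nat.cast_div_le ℝ _ _ _ N (D + 1)
    push_cast at this
    exact this
  calc B * ((N / (D + 1) : ℕ) : ℝ) ≤ B * ((N : ℝ) / (D + 1)) := mul_le_mul_of_nonneg_left h5 hB0
    _ = B / (D + 1) * N := by ring

theorem xx_tendsto (n : ℤ) (hn : n ≠ 0) (hsq : ¬ IsSquare n) : ∃ L : ℝ, L ≠ 0 ∧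
    Tendsto (fun N : ℕ => ∑ d ∈ Icc 1 N, XX n d / (d : ℝ)) atTop (𝓝 L) := by
  obtain ⟨L, hL0, hL⟩ := stage0_nonsquare n hn hsq
  refine ⟨L, hL0.ne', ?_⟩
  rw [tendsto_iff_norm_sub_tendsto_zero]
  have h0 : Tendsto (fun N : ℕ => (8 * n.natAbs : ℝ) / ((N : ℝ) + 1)) atTop (𝓝 0) :=
    tendsto_const_nhds.div_atTop (tendsto_atTop_add_const_right _ _ tendsto_natCast_atTop_atTop)
  refine squeeze_zero (fun _ => norm_nonneg _) (fun N => ?_) h0
  have h1 := xx_approx n hn hsq L hL N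
  have h2 : ∑ d ∈ Icc 1 N, XX n d / (d : ℝ) = ∑ d ∈ Ioc 0 N, XX n d * (1 / (d : ℝ)) := by
    apply Finset.sum_congr
    · ext d
      simp only [Finset.mem_Icc, Finset.mem_Ioc]
      omega
    · intro d _
      rw [mul_one_div]
  rw [h2, Real.norm_eq_abs, abs_sub_comm]
  exact h1

/-- Mertens for the character -/
theorem mert_xx (n : ℤ) (hn : n ≠ 0) (hsq : ¬ IsSquare n) : ∃ C' : ℝ, ∀ N : ℕ,
    |∑ d ∈ Icc 1 N, ArithmeticFunction.vonMangoldt d * XX n d / d| ≤ C' := by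
  obtain ⟨L, hL0, hL⟩ := xx_tendsto n hn hsq
  apply Pool.Agent.H304R2.EC.mert_abs (fun d => XX n d) (fun d => XX n d) (4 * n.natAbs) L
  · intro d
    exact (XX_abs_le n d).trans (by norm_num)
  · intro m hm
    have h1 : ∀ d ∈ m.divisors, ArithmeticFunction.vonMangoldt d * XX n d * XX n (m / d) =
        ArithmeticFunction.vonMangoldt d * XX n m := by
      intro d hd
      rw [mul_assoc, ← XX_mul, Nat.mul_div_cancel' (Nat.dvd_of_mem_divisors hd)]
    show XX n m * Real.log m = ∑ d ∈ m.divisors, ArithmeticFunction.vonMangoldt d * XX n d * XX n (m / d)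
    rw [Finset.sum_congr rfl h1, ← Finset.sum_mul, ArithmeticFunction.vonMangoldt_sum]
    ring
  · intro N
    rcases Nat.eq_zero_or_pos N with rfl | hN
    · simp
    · have h1 : (1 : ℝ) ≤ Real.sqrt N := by
        rw [Real.one_le_sqrt]
        exact_mod_cast hN
      have h2 : ∑ d ∈ Icc 1 N, XX n d = ∑ d ∈ Ioc 0 N, XX n d := by
        apply Finset.sum_congr _ (fun _ _ => rfl)
        ext d
        simp only [Finset.mem_Icc, Finset.mem_Ioc]
        omega
      show |∑ d ∈ Icc 1 N, XX n d| ≤ _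
      rw [h2]
      refine (XX_sum_bound n hn hsq N).trans ?_
      have h3 : (0 : ℝ) ≤ 4 * n.natAbs := by positivity
      nlinarith
  · exact hL
  · exact hL0

end Pool.Agent.H912R3.QM

namespace Pool.Agent.H912R3.QM

open Finset Filter Topology Pool.Agent.Helper919

/-- partial summation -/
theorem xx_log (D : ℤ) (hD : D ≠ 0) (hsq : ¬ IsSquare D) : ∃ C : ℝ, 0 ≤ C ∧ ∀ N : ℕ,
    |∑ d ∈ Icc 1 N, ArithmeticFunction.vonMangoldt d * XX D d / d * (1 / Real.log d)| ≤ C := by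
  obtain ⟨C', hC'⟩ := mert_xx D hD hsq
  have hC0 : 0 ≤ C' := (abs_nonneg _).trans (hC' 0)
  have hl2 : 0 < Real.log 2 := Real.log_pos (by norm_num)
  refine ⟨C' * (1 / Real.log 2), by positivity, fun N => ?_⟩
  set a : ℕ → ℝ := fun d => ArithmeticFunction.vonMangoldt d * XX D d / d with ha
  set v : ℕ → ℝ := fun d => 1 / Real.log (max d 2 : ℕ) with hv
  have hva : ∀ n, v (n + 1) ≤ v n := by
    intro n
    have h1 : (2 : ℝ) ≤ ((max n 2 : ℕ) : ℝ) := by exact_mod_cast le_max_right n 2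
    have h2 : ((max n 2 : ℕ) : ℝ) ≤ ((max (n + 1) 2 : ℕ) : ℝ) := by
      exact_mod_cast max_le_max_right 2 (Nat.le_succ n)
    exact one_div_le_one_div_of_le (Real.log_pos (by linarith)) (Real.log_le_log (by linarith) h2)
  have hv0 : ∀ n, 0 ≤ v n := by
    intro n
    have h1 : (2 : ℝ) ≤ ((max n 2 : ℕ) : ℝ) := by exact_mod_cast le_max_right n 2
    have := Real.log_nonneg (by linarith : (1 : ℝ) ≤ ((max n 2 : ℕ) : ℝ))
    simp only [hv]
    positivity
  have e0 : ∑ d ∈ Icc 1 N, a d * (1 / Real.log d) = ∑ d ∈ Icc 1 N, a d * v d := by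
    apply sum_congr rfl
    intro d hd
    rcases Nat.lt_or_ge d 2 with h | h
    · have : d = 1 := by have := (mem_Icc.1 hd).1; omega
      subst this
      simp [ha]
    · simp only [hv]
      rw [max_eq_left h]
  show |∑ d ∈ Icc 1 N, a d * (1 / Real.log d)| ≤ _
  rw [e0]
  have key : ∀ N : ℕ, ∑ n ∈ Icc 1 N, a n * v n =
      ∑ n ∈ Icc 1 N, (∑ k ∈ Icc 1 n, a k) * (v n - v (n + 1)) + (∑ k ∈ Icc 1 N, a k) * v (N + 1) :=
    fun N => Pool.Agent.H304R2.EC.MertAbs.abel a v N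
  rw [key]
  have h1 : |∑ n ∈ Icc 1 N, (∑ k ∈ Icc 1 n, a k) * (v n - v (n + 1))| ≤
      ∑ n ∈ Icc 1 N, C' * (v n - v (n + 1)) := by
    refine (abs_sum_le_sum_abs _ _).trans (sum_le_sum fun n _ => ?_)
    rw [abs_mul, abs_of_nonneg (by linarith [hva n] : 0 ≤ v n - v (n + 1))]
    exact mul_le_mul_of_nonneg_right (hC' n) (by linarith [hva n])
  have h2 : |(∑ k ∈ Icc 1 N, a k) * v (N + 1)| ≤ C' * v (N + 1) := by
    rw [abs_mul, abs_of_nonneg (hv0 _)]
    exact mul_le_mul_of_nonneg_right (hC' N) (hv0 _)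
  have h3 : ∑ n ∈ Icc 1 N, (v n - v (n + 1)) = v 1 - v (N + 1) := by
    clear h1 h2 e0
    induction N with
    | zero => simp
    | succ N ih =>
      rw [Finset.sum_Icc_succ_top (by omega), ih]
      ring
  rw [← mul_sum, h3] at h1
  have h4 : v 1 = 1 / Real.log 2 := by simp [hv]
  rw [h4] at h1
  calc _ ≤ _ := abs_add_le _ _
    _ ≤ C' * (1 / Real.log 2 - v (N + 1)) + C' * v (N + 1) := add_le_add h1 h2
    _ = _ := by ring

/-- the prime powers are negligible -/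
theorem xx_primes (D : ℤ) (hD : D ≠ 0) (hsq : ¬ IsSquare D) : ∃ C : ℝ, 0 ≤ C ∧ ∀ N : ℕ,
    |∑ p ∈ (Icc 1 N).filter Nat.Prime, XX D p / p| ≤ C := by
  obtain ⟨C, hC0, hC⟩ := xx_log D hD hsq
  have hs : Summable (fun n : ℕ => (if n.Prime then 0 else ArithmeticFunction.vonMangoldt n) / (n : ℝ)) := by
    have h := ArithmeticFunction.vonMangoldt.summable_residueClass_non_primes_div (q := 1) 0
    refine h.congr fun n => ?_
    congr 2
    rw [ArithmeticFunction.vonMangoldt.residueClass, Set.indicator_of_mem]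
    exact Subsingleton.elim _ _
  set S := ∑' n : ℕ, (if n.Prime then 0 else ArithmeticFunction.vonMangoldt n) / (n : ℝ) with hS
  have hl2 : 0 < Real.log 2 := Real.log_pos (by norm_num)
  have hnn : ∀ n : ℕ, 0 ≤ (if n.Prime then 0 else ArithmeticFunction.vonMangoldt n) / (n : ℝ) := by
    intro n
    apply div_nonneg _ (Nat.cast_nonneg n)
    split_ifs
    · exact le_rfl
    · exact ArithmeticFunction.vonMangoldt_nonneg
  have hS0 : 0 ≤ S := tsum_nonneg hnn
  refine ⟨C + S * (1 / Real.log 2), by positivity, fun N => ?_⟩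
  have h1 : ∑ p ∈ (Icc 1 N).filter Nat.Prime, XX D p / p =
      ∑ d ∈ Icc 1 N, ArithmeticFunction.vonMangoldt d * XX D d / d * (1 / Real.log d) -
      ∑ d ∈ Icc 1 N, (if d.Prime then 0 else ArithmeticFunction.vonMangoldt d) / (d : ℝ) *
        (XX D d * (1 / Real.log d)) := by
    rw [sum_filter, ← sum_sub_distrib]
    apply sum_congr rfl
    intro d hd
    by_cases hp : d.Prime
    · rw [if_pos hp, if_pos hp, ArithmeticFunction.vonMangoldt_apply_prime hp]
      have : 0 < Real.log d := Real.log_pos (by exact_mod_cast hp.one_lt)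
      field_simp
      ring
    · rw [if_neg hp, if_neg hp]
      ring
  rw [h1]
  have h2 : |∑ d ∈ Icc 1 N, (if d.Prime then 0 else ArithmeticFunction.vonMangoldt d) / (d : ℝ) *
        (XX D d * (1 / Real.log d))| ≤ S * (1 / Real.log 2) := by
    refine (abs_sum_le_sum_abs _ _).trans ?_
    calc _ ≤ ∑ d ∈ Icc 1 N, (if d.Prime then 0 else ArithmeticFunction.vonMangoldt d) / (d : ℝ) *
          (1 / Real.log 2) := by
          apply sum_le_sum
          intro d hd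
          rw [abs_mul, abs_of_nonneg (hnn d)]
          rcases Nat.lt_or_ge d 2 with h | h
          · have : d = 1 := by have := (mem_Icc.1 hd).1; omega
            subst this
            simp
          · apply mul_le_mul_of_nonneg_left _ (hnn d)
            have hd2 : (2 : ℝ) ≤ d := by exact_mod_cast h
            have h3 : Real.log 2 ≤ Real.log d := Real.log_le_log (by norm_num) hd2
            rw [abs_mul, abs_of_nonneg (by positivity : 0 ≤ 1 / Real.log d)]
            calc |XX D d| * (1 / Real.log d) ≤ 1 * (1 / Real.log 2) := by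
                  apply mul_le_mul (XX_abs_le D d) (one_div_le_one_div_of_le hl2 h3) (by positivity)
                    zero_le_one
              _ = _ := one_mul _
      _ = (∑ d ∈ Icc 1 N, (if d.Prime then 0 else ArithmeticFunction.vonMangoldt d) / (d : ℝ)) *
          (1 / Real.log 2) := by rw [sum_mul]
      _ ≤ S * (1 / Real.log 2) := by
          apply mul_le_mul_of_nonneg_right _ (by positivity)
          exact hs.sum_le_tsum _ (fun n _ => hnn n)
  calc _ ≤ |∑ d ∈ Icc 1 N, ArithmeticFunction.vonMangoldt d * XX D d / d * (1 / Real.log d)| +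
        |∑ d ∈ Icc 1 N, (if d.Prime then 0 else ArithmeticFunction.vonMangoldt d) / (d : ℝ) *
        (XX D d * (1 / Real.log d))| := abs_sub _ _
    _ ≤ _ := add_le_add (hC N) h2

end Pool.Agent.H912R3.QM

namespace Pool.Agent.H912R3.QM

open Finset Pool.Agent.H256R2.SC Pool.Agent.H426R3.SQ
open Pool.Agent.Helper919 (XX)

/-- Mertens for the split primes -/
theorem mertens_four (D : ℤ) (hD : D ≠ 0) (hsq : ¬ IsSquare D) :
    ∃ C : ℝ, 0 ≤ C ∧ ∀ y w : ℝ, 4 ≤ y → y ≤ w →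
    Real.log (Real.log w) - Real.log (Real.log y) - C ≤
      ∑ p ∈ (SP y w ∅).filter (fun p => XX D p = 1), (2 : ℝ) / p := by
  obtain ⟨C1, hC1, h1⟩ := Pool.Agent.H912R3.LF.mertens_two
  obtain ⟨C2, hC2, h2⟩ := xx_primes D hD hsq
  have hK0 : 0 ≤ ∑ p ∈ (Pool.Agent.Helper919.qq D).primeFactors, (1 : ℝ) / p :=
    Finset.sum_nonneg fun p _ => by positivity
  refine ⟨C1 + 2 * C2 + ∑ p ∈ (Pool.Agent.Helper919.qq D).primeFactors, (1 : ℝ) / p, by positivity, fun y w hy hyw => ?_⟩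
  have hy0 : (0:ℝ) ≤ y := by linarith
  have hsplit : ∑ p ∈ (Finset.Icc 1 ⌊w⌋₊).filter Nat.Prime, XX D p / p =
      ∑ p ∈ (Finset.Icc 1 ⌊y⌋₊).filter Nat.Prime, XX D p / p + ∑ p ∈ SP y w ∅, XX D p / p := by
    rw [← Finset.sum_union]
    · refine Finset.sum_congr ?_ fun _ _ => rfl
      ext p
      simp only [SP, mem_union, mem_filter, mem_Icc, notMem_empty, not_false_eq_true, and_true]
      constructor
      · rintro ⟨⟨h3, h4⟩, h5⟩
        by_cases h6 : p ≤ ⌊y⌋₊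
        · exact Or.inl ⟨⟨h3, h6⟩, h5⟩
        · refine Or.inr ⟨⟨h3, h4⟩, h5, ?_⟩
          exact (Nat.floor_lt hy0).mp (by omega)
      · rintro (⟨⟨h3, h4⟩, h5⟩ | ⟨⟨h3, h4⟩, h5, _⟩)
        · exact ⟨⟨h3, h4.trans (Nat.floor_le_floor hyw)⟩, h5⟩
        · exact ⟨⟨h3, h4⟩, h5⟩
    · rw [Finset.disjoint_left]
      intro p hp hp'
      simp only [SP, mem_filter, mem_Icc] at hp hp'
      have := (Nat.le_floor_iff hy0).mp hp.1.2
      linarith [hp'.2.2.1]
  set K : ℝ := ∑ p ∈ (Pool.Agent.Helper919.qq D).primeFactors, (1 : ℝ) / p with hK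
  have e1 : ∑ p ∈ SP y w ∅, (1 : ℝ) / p + ∑ p ∈ SP y w ∅, XX D p / p - K ≤
      ∑ p ∈ (SP y w ∅).filter (fun p => XX D p = 1), (2 : ℝ) / p := by
    have f1 : ∑ p ∈ (SP y w ∅).filter (fun p => p ∣ Pool.Agent.Helper919.qq D), (1 : ℝ) / p ≤ K := by
      rw [hK]
      apply Finset.sum_le_sum_of_subset_of_nonneg
      · intro p hp
        rw [mem_filter] at hp
        simp only [SP, mem_filter] at hp
        exact Nat.mem_primeFactors.2 ⟨hp.1.2.1, hp.2, (Pool.Agent.Helper919.qq_pos hD).ne'⟩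
      · intro p _ _; positivity
    have f2 : ∑ p ∈ SP y w ∅, (1 : ℝ) / p + ∑ p ∈ SP y w ∅, XX D p / p ≤
        ∑ p ∈ (SP y w ∅).filter (fun p => XX D p = 1), (2 : ℝ) / p +
        ∑ p ∈ (SP y w ∅).filter (fun p => p ∣ Pool.Agent.Helper919.qq D), (1 : ℝ) / p := by
      rw [sum_filter, sum_filter, ← sum_add_distrib, ← sum_add_distrib]
      apply sum_le_sum
      intro p hp
      simp only [SP, mem_filter] at hp
      have hp0 : (0 : ℝ) < p := by exact_mod_cast hp.2.1.pos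
      by_cases hd : p ∣ Pool.Agent.Helper919.qq D
      · rw [Pool.Agent.Helper919.XX_eq_zero_of_dvd hp.2.1 hd, if_pos hd, if_neg (by norm_num)]
        simp
      · rcases (Pool.Agent.Helper919.XX_of_not_dvd hp.2.1 hd).2 with hx | hx
        · rw [hx, if_pos rfl, if_neg hd]
          apply le_of_eq
          ring
        · rw [hx, if_neg (by norm_num), if_neg hd]
          apply le_of_eq
          ring
    linarith
  have a1 := (h1 y w hy hyw).1
  have a2 := (abs_le.1 (h2 ⌊w⌋₊)).1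
  have a3 := (abs_le.1 (h2 ⌊y⌋₊)).2
  linarith

/-- Mertens for the primes `1 mod 4` outside a small set -/
theorem mertens_four_B (D : ℤ) (hD : D ≠ 0) (hsq : ¬ IsSquare D) (A : ℕ) : ∃ C : ℝ, 0 ≤ C ∧ ∃ L₀ : ℝ, ∀ L : ℝ, L₀ ≤ L → ∀ B : Finset ℕ,
    (B.card : ℝ) ≤ L ^ (A + 3) → ∀ w : ℝ, L ^ 3 ≤ w →
      Real.log (Real.log w) - Real.log (Real.log (L ^ 3)) - C ≤
        ∑ p ∈ (SP (L ^ 3) w B).filter (fun p => XX D p = 1), (2 : ℝ) / p := by
  classical
  obtain ⟨C1, hC1, h1⟩ := Pool.Agent.H912R3.LF.mertens_two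
  obtain ⟨C2, hC2, h2⟩ := mertens_four D hD hsq
  obtain ⟨C3, hC3, L₀, h3⟩ := Pool.Agent.H912R3.LF.mertens_B A
  refine ⟨C2 + 2 * (C1 + C3), by positivity, max L₀ 4, fun L hL B hB w hw => ?_⟩
  have hL4 : (4 : ℝ) ≤ L := (le_max_right _ _).trans hL
  have h43 : (4 : ℝ) ≤ L ^ 3 := by
    calc (4 : ℝ) ≤ L := hL4
      _ = L ^ 1 := (pow_one L).symm
      _ ≤ L ^ 3 := pow_le_pow_right₀ (by linarith) (by norm_num)
  have a1 := (h1 (L ^ 3) w h43 hw).2
  have a2 := h2 (L ^ 3) w h43 hw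
  have a3 := h3 L ((le_max_left _ _).trans hL) B hB w hw
  have hsub : SP (L ^ 3) w B ⊆ SP (L ^ 3) w ∅ := by
    intro p hp
    simp only [SP, mem_filter, mem_Icc, notMem_empty, not_false_eq_true, and_true] at hp ⊢
    exact ⟨hp.1, hp.2.1, hp.2.2.1⟩
  have b1 : ∑ p ∈ SP (L ^ 3) w ∅ \ SP (L ^ 3) w B, (1 : ℝ) / p =
      ∑ p ∈ SP (L ^ 3) w ∅, (1 : ℝ) / p - ∑ p ∈ SP (L ^ 3) w B, (1 : ℝ) / p := by
    rw [← sum_sdiff hsub]; ring
  have b2 : ∑ p ∈ (SP (L ^ 3) w ∅).filter (fun p => XX D p = 1), (2 : ℝ) / p ≤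
      ∑ p ∈ (SP (L ^ 3) w B).filter (fun p => XX D p = 1), (2 : ℝ) / p +
        2 * ∑ p ∈ SP (L ^ 3) w ∅ \ SP (L ^ 3) w B, (1 : ℝ) / p := by
    have c1 : (SP (L ^ 3) w ∅).filter (fun p => XX D p = 1) ⊆
        (SP (L ^ 3) w B).filter (fun p => XX D p = 1) ∪ (SP (L ^ 3) w ∅ \ SP (L ^ 3) w B) := by
      intro p hp
      rw [mem_filter] at hp
      rw [mem_union, mem_filter, Finset.mem_sdiff]
      by_cases h : p ∈ SP (L ^ 3) w B
      · exact Or.inl ⟨h, hp.2⟩
      · exact Or.inr ⟨hp.1, h⟩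
    refine (Finset.sum_le_sum_of_subset_of_nonneg c1 (fun p _ _ => by positivity)).trans ?_
    refine (Pool.Agent.H912R3.LF.sum_union_le _ _ _ (fun p _ => by positivity)).trans ?_
    rw [mul_sum]
    apply add_le_add le_rfl
    apply sum_le_sum
    intro p _
    rw [mul_one_div]
  linarith

end Pool.Agent.H912R3.QM
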