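import Mathlib
import Pool.Agent.H912R3.LF.Main
import Pool.Agent.H912R3.QM.Greedy
import Pool.Agent.H912R3.QM.Bad

set_option autoImplicit false
set_option maxHeartbeats 4000000

/-! # Simultaneous composite values of many forms `(n + a) ^ 2 - D b ^ 2` -/

namespace Pool.Agent.H912R3.QM

open Finset Filter Pool.Agent.H256R2.SC Pool.Agent.H256R2.SC.G3 Pool.Agent.H426R3.SQ

open scoped Classical

open Pool.Agent.Helper919 (XX)

/-- the numerical facts for large `L` -/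
theorem ev_two (K : ℝ) : ∃ L₀ : ℝ, ∀ L : ℝ, L₀ ≤ L → 400 ≤ L ∧ K ≤ L ∧
    L ≤ Real.exp (L ^ (1 / 20 : ℝ)) ∧
    L ^ 2 * (4 * Real.exp (L ^ (1 / 20 : ℝ)) + 3) + Real.exp (L / 20) ≤ Real.exp (L / 10) := by
  obtain ⟨L₁, h1⟩ := Pool.Agent.H912R3.LF.ev_all K
  have h3 : ∀ᶠ L : ℝ in atTop, 100 ≤ L ^ (19 / 20 : ℝ) :=
    (tendsto_rpow_atTop (by norm_num : (0 : ℝ) < 19 / 20)).eventually_ge_atTop 100
  obtain ⟨L₂, h2⟩ := eventually_atTop.1 h3
  refine ⟨max (max L₁ L₂) 4000, fun L hL => ?_⟩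
  have hL1 : L₁ ≤ L := (le_max_left _ _).trans ((le_max_left _ _).trans hL)
  have hL2 : L₂ ≤ L := (le_max_right _ _).trans ((le_max_left _ _).trans hL)
  have hL3 : 4000 ≤ L := (le_max_right _ _).trans hL
  obtain ⟨a1, a2, a3⟩ := h1 L hL1
  refine ⟨a1, a2, a3, ?_⟩
  have hL0 : 0 < L := by linarith
  have b0 := h2 L hL2
  have b2 : L ^ (1 / 20 : ℝ) * L ^ (19 / 20 : ℝ) = L := by
    rw [← Real.rpow_add hL0]; norm_num
  have b3 : 0 < L ^ (1 / 20 : ℝ) := Real.rpow_pos_of_pos hL0 _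
  have b1 : 100 * L ^ (1 / 20 : ℝ) ≤ L := by nlinarith
  set t := L ^ (1 / 20 : ℝ) with ht
  have c1 : Real.exp t ≤ Real.exp (L / 100) := Real.exp_le_exp.2 (by linarith)
  have c2 : (1 : ℝ) ≤ Real.exp (L / 100) := Real.one_le_exp (by linarith)
  -- L ^ 2 ≤ exp (L / 50) * something
  have c3 : L ≤ 100 * Real.exp (L / 100) := by
    have := Real.add_one_le_exp (L / 100)
    linarith
  have c4 : L ^ 2 ≤ 10000 * Real.exp (L / 100) ^ 2 := by
    calc L ^ 2 ≤ (100 * Real.exp (L / 100)) ^ 2 := by gcongr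
      _ = _ := by ring
  set e := Real.exp (L / 100) with he
  have d1 : Real.exp (L / 20) = e ^ 5 := by
    rw [he, ← Real.exp_nat_mul]
    congr 1
    push_cast
    ring
  have d2 : Real.exp (L / 10) = e ^ 10 := by
    rw [he, ← Real.exp_nat_mul]
    congr 1
    push_cast
    ring
  have d3 : (100000 : ℝ) ≤ e := by
    have f1 : (2 : ℝ) ≤ Real.exp 1 := by
      have := Real.add_one_le_exp (1 : ℝ)
      linarith
    calc (100000 : ℝ) ≤ 2 ^ 40 := by norm_num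
      _ ≤ (Real.exp 1) ^ 40 := by gcongr
      _ = Real.exp 40 := by
          rw [← Real.exp_nat_mul]
          norm_num
      _ ≤ e := by
          rw [he]
          apply Real.exp_le_exp.2
          linarith
  rw [d1, d2]
  have e0 : 0 < e := by linarith
  calc L ^ 2 * (4 * Real.exp t + 3) + e ^ 5 ≤ 10000 * e ^ 2 * (4 * e + 3 * e) + e ^ 5 := by
        gcongr
        linarith
    _ = 70000 * e ^ 3 + e ^ 5 := by ring
    _ ≤ e * e ^ 3 + e ^ 5 := by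
        gcongr
        linarith
    _ ≤ e ^ 5 + e ^ 5 := by
        have : e * e ^ 3 ≤ e ^ 5 := by
          calc e * e ^ 3 = e ^ 4 := by ring
            _ ≤ e ^ 5 := pow_le_pow_right₀ (by linarith) (by norm_num)
        linarith
    _ = 2 * e ^ 5 := by ring
    _ ≤ e * e ^ 5 := by
        gcongr
        linarith
    _ = e ^ 6 := by ring
    _ ≤ e ^ 10 := pow_le_pow_right₀ (by linarith) (by norm_num)

/-- few values are small -/
theorem few_small (𝒮 : Finset ℤ) (a u : ℤ) (E : ℝ) (hE : 0 ≤ E) :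
    ((𝒮.filter (fun n => ¬ E < (((|(n + a) ^ 2 + u| : ℤ)) : ℝ))).card : ℝ) ≤ 4 * E + 2 := by
  have h1 : (𝒮.filter (fun n => ¬ E < (((|(n + a) ^ 2 + u| : ℤ)) : ℝ))).card ≤
      (Finset.Icc (-(⌊E⌋₊ : ℤ)) (⌊E⌋₊ : ℤ) ×ˢ (Finset.univ : Finset Bool)).card := by
    apply Finset.card_le_card_of_injOn (fun n => ((n + a) ^ 2 + u, decide (0 ≤ n + a)))
    · intro n hn
      rw [Finset.mem_coe, mem_filter, not_lt] at hn
      rw [Finset.mem_coe, mem_product, mem_Icc]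
      have h3 : ((((n + a) ^ 2 + u).natAbs : ℕ) : ℝ) ≤ E := by
        rw [Nat.cast_natAbs]
        exact hn.2
      have h4 : ((n + a) ^ 2 + u).natAbs ≤ ⌊E⌋₊ := Nat.le_floor h3
      refine ⟨⟨?_, ?_⟩, mem_univ _⟩ <;> (dsimp only; omega)
    · intro n _ m _ h
      simp only [Prod.mk.injEq, decide_eq_decide] at h
      obtain ⟨h5, h6⟩ := h
      have h7 : (n - m) * ((n + a) + (m + a)) = 0 := by linear_combination h5
      rcases mul_eq_zero.1 h7 with h8 | h8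
      · linarith
      · by_cases h9 : 0 ≤ n + a
        · have := h6.1 h9
          linarith
        · have h10 : ¬ 0 ≤ m + a := fun h => h9 (h6.2 h)
          push Not at h9 h10
          linarith
  rw [card_product, Int.card_Icc] at h1
  have h2 : ((⌊E⌋₊ : ℤ) + 1 - -(⌊E⌋₊ : ℤ)).toNat = 2 * ⌊E⌋₊ + 1 := by omega
  rw [h2] at h1
  have hb : (Finset.univ : Finset Bool).card = 2 := rfl
  rw [hb] at h1
  have h3 : (⌊E⌋₊ : ℝ) ≤ E := Nat.floor_le hE
  have h4 : ((𝒮.filter (fun n => ¬ E < (((|(n + a) ^ 2 + u| : ℤ)) : ℝ))).card : ℝ) ≤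
      (((2 * ⌊E⌋₊ + 1) * 2 : ℕ) : ℝ) :=
    Nat.cast_le.2 h1
  have h5 : (((2 * ⌊E⌋₊ + 1) * 2 : ℕ) : ℝ) = 4 * (⌊E⌋₊ : ℝ) + 2 := by push_cast; ring
  rw [h5] at h4
  exact h4.trans (by linarith)

/-- The theorem on many binary quadratic forms. -/
theorem two_squares (D : ℤ) (hD : D ≠ 0) (hsq : ¬ IsSquare D) (A : ℕ) : ∃ c : ℝ, 0 < c ∧ ∃ X₀ : ℝ, ∀ X : ℝ, X₀ ≤ X →
    ∀ F : Finset (ℤ × ℕ),
    (∀ x ∈ F, 1 ≤ x.2 ∧ |(x.1 : ℝ)| ≤ Real.exp ((Real.log X) ^ A) ∧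
      (x.2 : ℝ) ≤ Real.exp ((Real.log X) ^ A)) →
    ∑ x ∈ F, ((x.2 : ℝ) / Nat.totient x.2) ^ 2 ≤ c * (Real.log X * Real.log (Real.log X)) →
    ∀ z : ℤ, ∃ n : ℤ, z < n ∧ (n : ℝ) ≤ z + X ∧
      ∀ x ∈ F, ∃ p : ℕ, p.Prime ∧ (p : ℝ) ≤ Real.exp ((Real.log X) ^ (1 / 20 : ℝ)) ∧
        (p : ℤ) ∣ (n + x.1) ^ 2 + -(D * (x.2 : ℤ) ^ 2) ∧
        (p : ℤ) < |(n + x.1) ^ 2 + -(D * (x.2 : ℤ) ^ 2)| := by
  obtain ⟨C, hC0, hsurv⟩ := survivors_two D hD hsq
  obtain ⟨CM, hCM0, L₁, hmert⟩ := mertens_four_B D hD hsq (A + 1)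
  obtain ⟨c₂, hc₂, y₀, hy₀, hrough⟩ := rough_lower_B CM
  obtain ⟨c₃, hc₃, X₁, hcov⟩ := Pool.Agent.H912R3.LF.covering_hit (c₂ / 3) (by positivity)
  set c₄ : ℝ := min c₃ 1 with hc₄
  have hc₄0 : 0 < c₄ := lt_min hc₃ one_pos
  obtain ⟨L₀, hL₀⟩ := ev_two (max (max L₁ y₀) |(D : ℝ)|)
  refine ⟨min (c₄ / (2 * C)) 1, by positivity, max X₁ (Real.exp L₀), fun X hX F hF hsum z => ?_⟩
  have hX1 : X₁ ≤ X := (le_max_left _ _).trans hX
  have hX2 : Real.exp L₀ ≤ X := (le_max_right _ _).trans hX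
  have hX0 : 0 < X := (Real.exp_pos _).trans_le hX2
  have hLL : L₀ ≤ Real.log X := by rw [Real.le_log_iff_exp_le hX0]; exact hX2
  obtain ⟨e400, eK, eexp, ebig⟩ := hL₀ _ hLL
  set L := Real.log X with hL
  have hXL : X = Real.exp L := (Real.exp_log hX0).symm
  have hL1 : L₁ ≤ L := (le_max_left _ _).trans ((le_max_left _ _).trans eK)
  have hLy : y₀ ≤ L := (le_max_right _ _).trans ((le_max_left _ _).trans eK)
  have hLD : |(D : ℝ)| ≤ L := (le_max_right _ _).trans eK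
  have hLpos : 0 < L := by linarith
  set l := Real.log L with hl
  have hl0 : 0 < l := Real.log_pos (by linarith)
  have hlL : l ≤ L := (Real.log_le_sub_one_of_pos hLpos).trans (by linarith)
  set E := Real.exp (L ^ (1 / 20 : ℝ)) with hE
  have hE1 : 1 ≤ E := by linarith
  set N := ⌊L / 10⌋₊ with hN
  obtain ⟨hlN, hN3⟩ := Pool.Agent.H912R3.LF.logfloor e400
  have hN4 : 4 ≤ N := by
    apply Nat.le_floor
    push_cast
    linarith
  -- cardinality of F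
  have hFcard : (F.card : ℝ) ≤ L ^ 2 := by
    have h1 : (F.card : ℝ) ≤ ∑ x ∈ F, ((x.2 : ℝ) / Nat.totient x.2) ^ 2 := by
      rw [← nsmul_one, ← sum_const]
      apply sum_le_sum
      intro x hx
      have hx1 := (hF x hx).1
      have hφ : 0 < (Nat.totient x.2 : ℝ) := by exact_mod_cast Nat.totient_pos.2 (by omega : 0 < x.2)
      have h2 : 1 ≤ (x.2 : ℝ) / Nat.totient x.2 := by
        rw [le_div_iff₀ hφ, one_mul]
        exact_mod_cast Nat.totient_le _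
      exact one_le_pow₀ h2
    calc (F.card : ℝ) ≤ min (c₄ / (2 * C)) 1 * (L * l) := h1.trans hsum
      _ ≤ 1 * (L * L) := by
          gcongr
          exact min_le_right _ _
      _ = L ^ 2 := by ring
  obtain ⟨b, hb1, hb2⟩ := hsurv N hN4 F (fun x hx => (hF x hx).1)
  set S := (Icc 1 N).filter Nat.Prime with hS
  have hSp : ∀ p ∈ S, p.Prime := fun p hp => (mem_filter.1 hp).2
  have hSN : ∀ p ∈ S, p ≤ N := fun p hp => (mem_Icc.1 (mem_filter.1 hp).1).2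
  have hNL : (N : ℝ) ≤ L / 10 := Nat.floor_le (by positivity)
  set U := F.filter (fun x => ∀ p ∈ S, ¬ (p : ℤ) ∣ ((b p : ℤ) + x.1) ^ 2 + -(D * (x.2 : ℤ) ^ 2)) with hU
  have hUF : ∀ x ∈ U, x ∈ F := fun x hx => (mem_filter.1 hx).1
  have hUc : (U.card : ℝ) ≤ c₄ * L := by
    refine hb2.trans ?_
    have h1 : 0 < Real.log (N : ℝ) := by linarith
    have h2 : ∑ x ∈ F, ((x.2 : ℝ) / Nat.totient x.2) ^ 2 ≤ c₄ / (2 * C) * (L * l) := by
      refine hsum.trans ?_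
      gcongr
      exact min_le_left _ _
    calc C / Real.log N * ∑ x ∈ F, ((x.2 : ℝ) / Nat.totient x.2) ^ 2 ≤
          C / (l / 2) * (c₄ / (2 * C) * (L * l)) := by
          apply mul_le_mul _ h2 (Finset.sum_nonneg fun x _ => by positivity) (by positivity)
          exact div_le_div_of_nonneg_left hC0.le (by positivity) hlN
      _ = c₄ * L := by field_simp
  have hUc3 : (U.card : ℝ) ≤ c₃ * L := hUc.trans (by
    apply mul_le_mul_of_nonneg_right (min_le_left _ _) hLpos.le)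
  have hUc1 : (U.card : ℝ) ≤ L := hUc.trans (by
    have : c₄ ≤ 1 := min_le_right _ _
    nlinarith)
  obtain ⟨B, hB1, hB2, hB3⟩ := bad_two D hsq A L (by linarith) (by exact_mod_cast hLD) U hUc1 (fun x hx => hF x (hUF x hx))
  -- CRT modulo small primes
  set P : ℕ := ∏ p ∈ S, p with hP
  have hPpos : 0 < P := Finset.prod_pos fun p hp => (hSp p hp).pos
  obtain ⟨b0, -, hb0⟩ := crt_small S hSp (fun p => p - b p)
  have hPprim : P = primorial ⌊L / 10⌋₊ := by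
    rw [hP, primorial]
    apply Finset.prod_congr _ (fun _ _ => rfl)
    ext p
    rw [hS, mem_filter, mem_filter, mem_Icc, mem_range]
    constructor
    · rintro ⟨⟨h1, h2⟩, h3⟩
      exact ⟨by omega, h3⟩
    · rintro ⟨h1, h3⟩
      exact ⟨⟨h3.one_lt.le, by omega⟩, h3⟩
  obtain ⟨x1, x2, -, -, -⟩ := Pool.Agent.H378R2.RM.xpow X L (L / 10) hX0 hL e400 (by positivity) le_rfl
  rw [← hPprim] at x1
  have hPr0 : (0 : ℝ) < P := by exact_mod_cast hPpos
  have hPz : (0 : ℤ) < P := by exact_mod_cast hPpos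
  -- the set of candidates
  set 𝒜₀ := Finset.Ioc z (z + (⌊X⌋₊ : ℤ)) with h𝒜₀
  set 𝒜 := 𝒜₀.filter (fun a : ℤ => (P : ℤ) ∣ a - b0 ∧ ∀ x ∈ F, E < (((|(a + x.1) ^ 2 + -(D * (x.2 : ℤ) ^ 2)| : ℤ)) : ℝ)) with h𝒜
  have hXf : (⌊X⌋₊ : ℝ) ≤ X := Nat.floor_le hX0.le
  have hXf2 : X < ⌊X⌋₊ + 1 := Nat.lt_floor_add_one _
  set NN : ℝ := (⌊X⌋₊ : ℝ) / P with hNN
  have hNN4 : X ^ (1 / 2 : ℝ) ≤ NN := by
    have h2 : X ^ (1 / 2 : ℝ) * X ^ (1 / 2 : ℝ) = X := by
      rw [← Real.rpow_add hX0]; norm_num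
    have h3 : 0 < X ^ (1 / 2 : ℝ) := by positivity
    have h5 : (1 : ℝ) ≤ X ^ (1 / 2 : ℝ) := by
      have : (1 : ℝ) ≤ P := by exact_mod_cast hPpos
      linarith
    rw [hNN, le_div_iff₀ hPr0]
    have h4 : X ^ (1 / 2 : ℝ) * (4 * P) ≤ X := by
      calc X ^ (1 / 2 : ℝ) * (4 * P) ≤ X ^ (1 / 2 : ℝ) * X ^ (1 / 2 : ℝ) := by gcongr
        _ = X := h2
    have h6 : (1 : ℝ) ≤ X ^ (1 / 2 : ℝ) * P := by
      have : (1 : ℝ) ≤ P := by exact_mod_cast hPpos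
      nlinarith
    nlinarith
  -- non survivors
  have hnon : ∀ a ∈ 𝒜, ∀ x ∈ F, x ∉ U → ∃ p : ℕ, p.Prime ∧
      (p : ℝ) ≤ E ∧ (p : ℤ) ∣ (a + x.1) ^ 2 + -(D * (x.2 : ℤ) ^ 2) := by
    intro a ha x hx hxU
    rw [hU, mem_filter] at hxU
    push Not at hxU
    obtain ⟨p, hpS, hp⟩ := hxU hx
    refine ⟨p, hSp p hpS, ?_, ?_⟩
    · have h1 : (p : ℝ) ≤ N := by exact_mod_cast hSN p hpS
      linarith
    · have h1 : (p : ℤ) ∣ (b0 : ℤ) - b p := by
        have h2 : (p : ℤ) ∣ ((b0 + (p - b p) : ℕ) : ℤ) := by exact_mod_cast hb0 p hpS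
        have h3 : b p < p := hb1 p hpS
        rw [Nat.cast_add, Nat.cast_sub h3.le] at h2
        have e : (b0 : ℤ) - b p = (b0 + ((p : ℤ) - b p)) - p := by ring
        rw [e]
        exact dvd_sub_self_right.2 h2
      have h4 : (p : ℤ) ∣ (P : ℤ) := by exact_mod_cast Finset.dvd_prod_of_mem _ hpS
      have h5 : (P : ℤ) ∣ a - b0 := (mem_filter.1 ha).2.1
      have h6 : (p : ℤ) ∣ (a + x.1) - ((b p : ℤ) + x.1) := by
        have e : (a + x.1) - ((b p : ℤ) + x.1) = (a - b0) + ((b0 : ℤ) - b p) := by ring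
        rw [e]
        exact dvd_add (h4.trans h5) h1
      exact (C1e_congr _ _ _ _ h6).2 hp
  have hsize : ∀ a ∈ 𝒜, ∀ x ∈ F, ∀ p : ℕ, (p : ℝ) ≤ E →
      (p : ℤ) < |(a + x.1) ^ 2 + -(D * (x.2 : ℤ) ^ 2)| := by
    intro a ha x hx p hp
    have h1 := (mem_filter.1 ha).2.2 x hx
    have h2 := hp.trans_lt h1
    exact_mod_cast h2
  have hrange : ∀ a ∈ 𝒜, z < a ∧ (a : ℝ) ≤ z + X := by
    intro a ha
    have h1 := (mem_filter.1 ha).1
    rw [h𝒜₀, mem_Ioc] at h1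
    refine ⟨h1.1, ?_⟩
    have h2 : (a : ℝ) ≤ z + (⌊X⌋₊ : ℝ) := by exact_mod_cast h1.2
    linarith
  have hL3 : L ≤ L ^ 3 := by
    calc L = L ^ 1 := (pow_one L).symm
      _ ≤ L ^ 3 := pow_le_pow_right₀ (by linarith) (by norm_num)
  have hpP : ∀ p : ℕ, p.Prime → L ^ 3 < (p : ℝ) → ¬ p ∣ P := by
    intro p hp hpL hd
    rw [hP] at hd
    obtain ⟨q, hq, hpq⟩ := (hp.prime.dvd_finsetProd_iff _).1 hd
    have h1 : p = q := (Nat.prime_dvd_prime_iff_eq hp (hSp q hq)).1 hpq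
    have h2 : (p : ℝ) ≤ N := by rw [h1]; exact_mod_cast hSN q hq
    linarith
  -- the counting statement
  have hcount : ∀ (T : Finset ℕ) (s : ℕ → ℤ × ℕ), (∏ p ∈ T, (p : ℝ)) ≤ X ^ (1 / 4 : ℝ) →
      (∀ p ∈ T, p.Prime ∧ L ^ 3 < p) →
      |((𝒜.filter (fun a => ∀ p ∈ T, (p : ℤ) ∣ (a + (s p).1) ^ 2 + -(D * ((s p).2 : ℤ) ^ 2))).card : ℝ) -
        NN * ∏ p ∈ T, (rho (-(D * ((s p).2 : ℤ) ^ 2)) p : ℝ) / (p : ℝ)| ≤ X ^ (1 / 10 : ℝ) := by
    intro T s hT1 hT2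
    have h1 := count_sq_shift z (z + (⌊X⌋₊ : ℤ)) (by linarith [(Nat.cast_nonneg ⌊X⌋₊ : (0 : ℤ) ≤ (⌊X⌋₊ : ℤ))])
      P hPpos b0 T (fun p hp => ⟨(hT2 p hp).1, hpP p (hT2 p hp).1 (hT2 p hp).2⟩)
      (fun p => (s p).1) (fun p => -(D * ((s p).2 : ℤ) ^ 2))
    have h2 : (((z + (⌊X⌋₊ : ℤ) : ℤ) : ℝ) - z) / P = NN := by
      rw [hNN]
      push_cast
      congr 1
      ring
    rw [h2] at h1
    have h3 : ∏ p ∈ T, (rho (-(D * ((s p).2 : ℤ) ^ 2)) p : ℝ) ≤ Real.exp (L / 20) := by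
      calc ∏ p ∈ T, (rho (-(D * ((s p).2 : ℤ) ^ 2)) p : ℝ) ≤ ∏ p ∈ T, (p : ℝ) ^ (1 / 5 : ℝ) := by
            apply Finset.prod_le_prod
            · intro p _; positivity
            · intro p hp
              have h4 : (rho (-(D * ((s p).2 : ℤ) ^ 2)) p : ℝ) ≤ 2 := by
                exact_mod_cast rho_le_two _ p (hT2 p hp).1
              have h5 : (32 : ℝ) ≤ p := by linarith [(hT2 p hp).2]
              have h6 : (2 : ℝ) ≤ (p : ℝ) ^ (1 / 5 : ℝ) := by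
                have h7 : (2 : ℝ) = (32 : ℝ) ^ (1 / 5 : ℝ) := by
                  rw [show (32 : ℝ) = 2 ^ (5 : ℝ) by norm_num, ← Real.rpow_mul (by norm_num)]
                  norm_num
                rw [h7]
                exact Real.rpow_le_rpow (by norm_num) h5 (by norm_num)
              linarith
        _ = (∏ p ∈ T, (p : ℝ)) ^ (1 / 5 : ℝ) := by
            rw [Real.finsetProd_rpow T _ (fun p _ => by positivity)]
        _ ≤ (X ^ (1 / 4 : ℝ)) ^ (1 / 5 : ℝ) := by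
            apply Real.rpow_le_rpow (Finset.prod_nonneg fun p _ => by positivity) hT1 (by norm_num)
        _ = Real.exp (L / 20) := by
            rw [hXL, ← Real.exp_mul, ← Real.exp_mul]
            congr 1
            ring
    set G := 𝒜₀.filter (fun a : ℤ => (P : ℤ) ∣ a - b0 ∧
        ∀ p ∈ T, (p : ℤ) ∣ (a + (s p).1) ^ 2 + -(D * ((s p).2 : ℤ) ^ 2)) with hG
    set H := 𝒜.filter (fun a => ∀ p ∈ T, (p : ℤ) ∣ (a + (s p).1) ^ 2 + -(D * ((s p).2 : ℤ) ^ 2)) with hH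
    have hHG : H ⊆ G := by
      intro a ha
      simp only [hH, h𝒜, mem_filter] at ha
      simp only [hG, mem_filter]
      exact ⟨ha.1.1, ha.1.2.1, ha.2⟩
    have hGH : G ⊆ H ∪ F.biUnion (fun x => 𝒜₀.filter (fun n => ¬ E < (((|(n + x.1) ^ 2 + -(D * (x.2 : ℤ) ^ 2)| : ℤ)) : ℝ))) := by
      intro a ha
      simp only [hG, mem_filter] at ha
      rw [mem_union, mem_biUnion]
      by_cases h : ∀ x ∈ F, E < (((|(a + x.1) ^ 2 + -(D * (x.2 : ℤ) ^ 2)| : ℤ)) : ℝ)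
      · left
        simp only [hH, h𝒜, mem_filter]
        exact ⟨⟨ha.1, ha.2.1, h⟩, ha.2.2⟩
      · right
        push Not at h
        obtain ⟨x, hx, hx2⟩ := h
        exact ⟨x, hx, mem_filter.2 ⟨ha.1, not_lt.2 hx2⟩⟩
    have h5 : (H.card : ℝ) ≤ G.card := by exact_mod_cast card_le_card hHG
    have h6 : (G.card : ℝ) ≤ H.card + L ^ 2 * (4 * E + 2) := by
      have h7 : G.card ≤ H.card + ∑ x ∈ F, (𝒜₀.filter (fun n => ¬ E < (((|(n + x.1) ^ 2 + -(D * (x.2 : ℤ) ^ 2)| : ℤ)) : ℝ))).card :=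
        (card_le_card hGH).trans ((card_union_le _ _).trans (by
          gcongr
          exact card_biUnion_le))
      have h8 : (G.card : ℝ) ≤ H.card +
          ∑ x ∈ F, ((𝒜₀.filter (fun n => ¬ E < (((|(n + x.1) ^ 2 + -(D * (x.2 : ℤ) ^ 2)| : ℤ)) : ℝ))).card : ℝ) := by
        exact_mod_cast h7
      refine h8.trans ?_
      have h9 : ∑ x ∈ F, ((𝒜₀.filter (fun n => ¬ E < (((|(n + x.1) ^ 2 + -(D * (x.2 : ℤ) ^ 2)| : ℤ)) : ℝ))).card : ℝ) ≤
          ∑ x ∈ F, (4 * E + 2) := sum_le_sum fun x _ => few_small _ _ _ _ (by linarith)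
      rw [sum_const, nsmul_eq_mul] at h9
      have h10 : (F.card : ℝ) * (4 * E + 2) ≤ L ^ 2 * (4 * E + 2) := by gcongr
      linarith
    have h11 : |(G.card : ℝ) - NN * ∏ p ∈ T, (rho (-(D * ((s p).2 : ℤ) ^ 2)) p : ℝ) / (p : ℝ)| ≤
        Real.exp (L / 20) := by
      refine le_trans (le_of_eq ?_) (h1.trans h3)
      congr!
    have h12 : X ^ (1 / 10 : ℝ) = Real.exp (L / 10) := by
      rw [hXL, ← Real.exp_mul]
      congr 1
      ring
    rw [h12]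
    rw [abs_le] at h11 ⊢
    have h13 : 0 ≤ L ^ 2 := by positivity
    constructor <;> nlinarith [h11.1, h11.2]
  rcases U.eq_empty_or_nonempty with hUe | hUn
  · -- no survivors
    have hne : 𝒜.Nonempty := by
      by_contra hne
      rw [not_nonempty_iff_eq_empty] at hne
      have h1 := hcount ∅ (fun _ => (0, 0)) (by
        simp
        apply Real.one_le_rpow _ (by norm_num)
        rw [hXL]
        exact Real.one_le_exp hLpos.le) (by simp)
      rw [hne] at h1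
      simp at h1
      rw [abs_of_nonneg (by positivity)] at h1
      have h2 : X ^ (1 / 10 : ℝ) < X ^ (1 / 2 : ℝ) := by
        apply Real.rpow_lt_rpow_of_exponent_lt _ (by norm_num)
        rw [hXL]
        exact Real.one_lt_exp_iff.2 hLpos
      norm_num at h1 h2 hNN4
      linarith
    obtain ⟨a, ha⟩ := hne
    obtain ⟨r1, r2⟩ := hrange a ha
    refine ⟨a, r1, r2, fun x hx => ?_⟩
    obtain ⟨p, hp1, hp2, hp3⟩ := hnon a ha x hx (by rw [hUe]; simp)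
    exact ⟨p, hp1, hp2, hp3, hsize a ha x hx p hp2⟩
  have : Nonempty {x // x ∈ U} := hUn.to_subtype
  have hrho : ∀ (k : {x // x ∈ U}) (p : ℕ), 0 ≤ (if p.Prime then (rho (-(D * (k.1.2 : ℤ) ^ 2)) p : ℝ) / p else 0) ∧
      (if p.Prime then (rho (-(D * (k.1.2 : ℤ) ^ 2)) p : ℝ) / p else 0) ≤ 2 / (p : ℝ) := by
    intro k p
    split_ifs with hp
    · have h1 : (rho (-(D * (k.1.2 : ℤ) ^ 2)) p : ℝ) ≤ 2 := by exact_mod_cast rho_le_two _ p hp
      have h2 : (0 : ℝ) < p := by exact_mod_cast hp.pos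
      exact ⟨by positivity, by gcongr⟩
    · exact ⟨le_rfl, by positivity⟩
  obtain ⟨a, ha, hak⟩ := hcov X hX1 B {x // x ∈ U}
    (by rw [Fintype.card_coe]; exact hUc3)
    (fun p a k => p ∉ B ∧ (p : ℤ) ∣ (a + k.1.1) ^ 2 + -(D * (k.1.2 : ℤ) ^ 2))
    (fun p k => if p.Prime then (rho (-(D * (k.1.2 : ℤ) ^ 2)) p : ℝ) / p else 0)
    (fun p k => hrho k p)
    (by
      rintro p hp hpL m k k' ⟨hpB, h1⟩ ⟨-, h2⟩
      by_contra hkk
      apply hpB
      exact hB3 k.1 k.2 k'.1 k'.2 (fun h => hkk (Subtype.ext h)) p hp (res_dvd h1 h2))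
    (by
      intro k z' x hx hxz hz
      have h1 := hrough (L ^ 3) z' B (fun p => if p.Prime then (rho (-(D * (k.1.2 : ℤ) ^ 2)) p : ℝ) / p else 0)
        (hLy.trans hL3) (fun p => hrho k p)
        (fun w hw _ => by
          refine (hmert L hL1 B hB1 w hw).trans ?_
          rw [sum_filter]
          apply sum_le_sum
          intro p hp
          have hp' := (mem_filter.1 hp).2
          rw [if_pos hp'.1]
          have hp0 : (0 : ℝ) < p := by exact_mod_cast hp'.1.pos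
          split_ifs with h4
          · have h5 : ¬ p ∣ k.1.2 := fun h => hp'.2.2 (hB2 k.1 k.2 p hp'.1 h)
            have h6 : (2 : ℝ) ≤ rho (-(D * (k.1.2 : ℤ) ^ 2)) p := by
              exact_mod_cast rho_ge_two D hp'.1 h4 h5
            gcongr
          · positivity) x hx hxz
      have e : c₂ / 3 * Real.log x / l = c₂ * Real.log x / Real.log (L ^ 3) := by
        rw [Real.log_pow, ← hl]
        push_cast
        field_simp
      rw [e]
      exact h1)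
    𝒜 NN (X ^ (1 / 10 : ℝ)) hNN4 (by positivity) le_rfl (by
      intro T s hT hTp
      have h1 := hcount T (fun p => (s p).1) hT (fun p hp => ⟨(hTp p hp).1, (hTp p hp).2.1⟩)
      have h2 : ∏ p ∈ T, (if p.Prime then (rho (-(D * ((s p).1.2 : ℤ) ^ 2)) p : ℝ) / p else 0) =
          ∏ p ∈ T, (rho (-(D * ((s p).1.2 : ℤ) ^ 2)) p : ℝ) / p :=
        prod_congr rfl fun p hp => by rw [if_pos (hTp p hp).1]
      rw [h2]
      refine le_trans (le_of_eq ?_) h1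
      congr 4
      ext a
      simp only [mem_filter]
      constructor
      · rintro ⟨h3, h4⟩
        exact ⟨h3, fun p hp => (h4 p hp).2⟩
      · rintro ⟨h3, h4⟩
        exact ⟨h3, fun p hp => ⟨(hTp p hp).2.2, h4 p hp⟩⟩)
  obtain ⟨r1, r2⟩ := hrange a ha
  refine ⟨a, r1, r2, fun x hx => ?_⟩
  by_cases hxU : x ∈ U
  · obtain ⟨p, hp1, -, hp3, -, -, hp4⟩ := hak ⟨x, hxU⟩
    exact ⟨p, hp1, hp3, hp4, hsize a ha x hx p hp3⟩
  · obtain ⟨p, hp1, hp2, hp3⟩ := hnon a ha x hx hxU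
    exact ⟨p, hp1, hp2, hp3, hsize a ha x hx p hp2⟩

end Pool.Agent.H912R3.QM
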